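import Mathlib.Analysis.RCLike.Basic
import Mathlib.Geometry.Convex.Cone.Pointed
import Pool.Agent.MP_a703b5_ag.Defs

/-!
Cartier divisors, degrees on curves, numerical classes, the cone conjecture, and crepant
resolutions of the quotient of the cube of the elliptic curve with `j = 0` by the cube roots of unity.
-/

set_option autoImplicit false

open AlgebraicGeometry CategoryTheory

namespace Pool.Agent.MP_20d318_ag

open MP_a703b5_ag (const)

/-- A Cartier divisor: a local equation at every point; the one at `x` is valid near `x`. -/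
structure CDiv (X : Scheme.{0}) [IsIntegral X] where
  /-- the local equation at a point -/
  eqn : X → X.functionField
  ne : ∀ x, eqn x ≠ 0
  loc : ∀ x, ∃ U : X.Opens, x ∈ U ∧ ∀ y ∈ U, ∃ u : (X.presheaf.stalk y)ˣ,
    eqn y = algebraMap (X.presheaf.stalk y) X.functionField u * eqn x

variable {X : Scheme.{0}}

/-- A complete normal curve with a morphism to `X`. -/
structure Curve (s : X ⟶ Spec (CommRingCat.of ℂ)) where
  /-- the curve -/
  C : Scheme.{0}
  integral : IsIntegral C
  noeth : IsLocallyNoetherian C
  /-- the morphism -/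
  γ : C ⟶ X
  proper : IsProper (γ ≫ s)
  normal : ∀ p : C, IsIntegrallyClosed (C.presheaf.stalk p)
  dim : topologicalKrullDim C = 1

attribute [instance] Curve.integral Curve.noeth

/-- Push-forward by an automorphism over `ℂ`: `(a_* ξ) · C = ξ · a⁻¹ C`. -/
noncomputable def push {s : X ⟶ Spec (CommRingCat.of ℂ)} (a : Aut (Over.mk s)) (ξ : Curve s → ℝ) :
    Curve s → ℝ := fun c =>
  ξ { c with γ := c.γ ≫ a.inv.left
             proper := by
               have h : a.inv.left ≫ s = s := Over.w a.inv
               rw [Category.assoc, h]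
               exact c.proper }

variable [IsIntegral X]

/-- All local equations are regular. -/
def CDiv.Effective (D : CDiv X) : Prop :=
  ∀ x, ∃ u : X.presheaf.stalk x, D.eqn x = algebraMap _ X.functionField u

/-- The pull-back along `γ` of a rational function that is regular at the image `γ η` of the
generic point (zero for the other functions). -/
noncomputable def pull {C : Scheme.{0}} [IsIntegral C] (γ : C ⟶ X) :
    X.functionField → C.functionField :=
  Function.extend (algebraMap (X.presheaf.stalk (γ (genericPoint C))) X.functionField)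
    (γ.stalkMap (genericPoint C)) 0

variable (s : X ⟶ Spec (CommRingCat.of ℂ))

/-- The degree of `γ^* O(D)`: the sum over the points `p` of the curve of the order at `p` of the
pull-back of the quotient of the equations at `γ p` and at `γ η` (a unit at `γ η`). -/
noncomputable def deg (D : CDiv X) (c : Curve s) : ℝ :=
  (∑ᶠ p : c.C, c.C.ord (pull c.γ (D.eqn (c.γ p) / D.eqn (c.γ (genericPoint c.C)))) p : ℤ)

/-- `N¹(X)`: real Cartier divisors modulo numerical equivalence, as functions on curves. -/
noncomputable def N1 : Submodule ℝ (Curve s → ℝ) := Submodule.span ℝ (Set.range (deg s))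

/-- The effective nef cone. -/
def effNef : Set (Curve s → ℝ) :=
  {ξ | (∀ c, 0 ≤ ξ c) ∧ ξ ∈ PointedCone.hull ℝ (deg s '' {D | D.Effective})}

/-- The interior of a subset of `N¹(X)`. -/
def int (P : Set (Curve s → ℝ)) : Set (Curve s → ℝ) :=
  Subtype.val '' interior (Subtype.val ⁻¹' P : Set (N1 s))

/-- The nef cone conjecture for `X`. -/
def ConeConj : Prop :=
  FiniteDimensional ℝ (N1 s) ∧ ∃ (R : Finset (Curve s → ℝ)) (P : Set (Curve s → ℝ)),
    (∀ r ∈ R, r ∈ Submodule.span ℚ (Set.range (deg s))) ∧
    P = PointedCone.hull ℝ (R : Set (Curve s → ℝ)) ∧ P ⊆ effNef s ∧ effNef s = ⋃ a : Aut (Over.mk s), push a '' P ∧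
    ∀ a : Aut (Over.mk s), (∃ ξ ∈ N1 s, push a ξ ≠ ξ) → int s P ∩ push a '' int s P = ∅

/-- Some rational top form `b₁ ∧ ⋯ ∧ bₙ` generates the top forms at every point. -/
def TrivialCanonical : Prop :=
  letI : Algebra ℂ X.functionField := (const s).toAlgebra
  ∃ (n : ℕ) (b : Module.Basis (Fin n) X.functionField Ω[X.functionField⁄ℂ]), ∀ x : X,
    (∀ a : Fin n → X.presheaf.stalk x, ∃ u : X.presheaf.stalk x, algebraMap _ _ u =
      b.det fun i => KaehlerDifferential.D ℂ X.functionField (algebraMap _ _ (a i))) ∧
    ∃ a : Fin n → X.presheaf.stalk x,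
      b.det (fun i => KaehlerDifferential.D ℂ X.functionField (algebraMap _ _ (a i))) ≠ 0 ∧
      ∃ u : X.presheaf.stalk x, algebraMap _ _ u =
        (b.det fun i => KaehlerDifferential.D ℂ X.functionField (algebraMap _ _ (a i)))⁻¹

/-- `X` has a birational morphism to `E³/μ₃`, where `E` is the cubic `y² z = x³ + z³` and `μ₃`
acts diagonally by `x ↦ ω x`: the function field of `X` is the field of invariants of `ℂ(E³)`, and
every local ring contains the invariant regular functions of one of the eight standard affine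
charts of `E³` (`z ≠ 0` or `y ≠ 0` in each factor). -/
def ResolvesQuotient : Prop :=
  ∃ (F : Type) (_ : Field F) (_ : Algebra ℂ F) (x y : Fin 3 → F) (ω : ℂ) (w : F ≃ₐ[ℂ] F)
    (e : X.functionField →+* F),
    AlgebraicIndependent ℂ y ∧ (∀ i, y i ^ 2 = x i ^ 3 + 1) ∧
    IntermediateField.adjoin ℂ (Set.range x ∪ Set.range y) = ⊤ ∧
    ω ^ 2 + ω + 1 = 0 ∧ (∀ i, w (x i) = ω • x i) ∧ (∀ i, w (y i) = y i) ∧
    (∀ c, e (const s c) = algebraMap ℂ F c) ∧ (∀ f, (∃ g, e g = f) ↔ w f = f) ∧
    ∀ p : X, ∃ z : Fin 3 → F, (∀ i, z i = 1 ∨ z i = y i) ∧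
      ∀ f ∈ Algebra.adjoin ℂ (⋃ i, {x i / z i, y i / z i, 1 / z i}), w f = f →
        ∃ u : X.presheaf.stalk p, e (algebraMap _ X.functionField u) = f

end Pool.Agent.MP_20d318_ag
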