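import Mathlib.Topology.Sheaves.Presheaf
import Mathlib.RingTheory.Polynomial.Eisenstein.Criterion
import Pool.Agent.MP_20d318_ag.AG.Spec
import Mathlib.AlgebraicGeometry.SpreadingOut
import Mathlib.RingTheory.Ideal.HasGoingUp
import Mathlib.RingTheory.NoetherNormalization
import Mathlib.RingTheory.Valuation.AlgebraInstances
import Pool.Agent.MP_20d318_ag.Sch.Stmt
import Pool.Agent.MP_a703b5_ag.Maps

-- ======== part 0: formerly Pool.Agent.MP_20d318_ag.Sch.Univ
section MrgPart0

/-!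
The universal property of the ring generated by `u`, `T` with `φ T = c u ^ 3`.
-/

set_option autoImplicit false
set_option linter.unusedSectionVars false

open Polynomial
open scoped Polynomial.Bivariate

namespace Pool.Agent.MP_20d318_ag.Sch

theorem dvd_of_aeval {F K : Type} [Field F] [Field K] [Algebra F K] {φ : F[X]} {r c : F}
    (h1 : X - C r ∣ φ) (h2 : ¬ (X - C r) ^ 2 ∣ φ) (hc : c ≠ 0) {u T : K}
    (hT : Transcendental F T) (h : aeval T φ = algebraMap F K c * u ^ 3) {f : F[X][Y]}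
    (hf : aevalAeval u T f = 0) : φ.map C - C (C c * X ^ 3) ∣ f := by
  let : Algebra F[X] K := (aeval T : F[X] →ₐ[F] K).toRingHom.toAlgebra
  have : FaithfulSMul F[X] K := (faithfulSMul_iff_algebraMap_injective _ _).mpr
    (transcendental_iff_injective.mp hT)
  have key : ∀ g : F[X][Y], aeval u g = aevalAeval T u g := fun g => by
    induction g using Polynomial.induction_on' with
    | add p q hp hq => rw [map_add, map_add, hp, hq]
    | monomial n a =>
      rw [aeval_monomial, ← C_mul_X_pow_eq_monomial, map_mul, map_pow, aevalAeval_C, aevalAeval_Y]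
      rfl
  let G : F[X][Y] := Y ^ 3 - C (C c⁻¹ * φ)
  have hm : G.Monic := monic_X_pow_sub_C _ (by norm_num)
  have hu : IsUnit (C c⁻¹ : F[X]) := isUnit_C.mpr (inv_ne_zero hc).isUnit
  have hirr : Irreducible G := by
    refine irreducible_of_eisenstein_criterion (P := Ideal.span {X - C r})
      ((Ideal.span_singleton_prime (X_sub_C_ne_zero r)).mpr (prime_X_sub_C r)) ?_ (fun n hn => ?_)
      (by rw [degree_X_pow_sub_C (by norm_num)]; norm_num) ?_ hm.isPrimitive
    · rw [hm.leadingCoeff, Ideal.mem_span_singleton, ← isUnit_iff_dvd_one]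
      exact (prime_X_sub_C r).not_isUnit
    · rw [degree_X_pow_sub_C (by norm_num), Nat.cast_lt] at hn
      rw [coeff_sub, coeff_X_pow, if_neg hn.ne, zero_sub, neg_mem_iff, coeff_C]
      split_ifs
      · exact Ideal.mem_span_singleton.mpr (h1.mul_left _)
      · exact zero_mem _
    · rw [coeff_sub, coeff_X_pow, if_neg (by norm_num), zero_sub, neg_mem_iff, coeff_C_zero,
        Ideal.span_singleton_pow, Ideal.mem_span_singleton, hu.dvd_mul_left]
      exact h2
  have hG : aeval u G = 0 := by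
    rw [key, map_sub, map_pow, aevalAeval_Y, aevalAeval_C, map_mul, aeval_C, h, map_inv₀,
      inv_mul_cancel_left₀ ((_root_.map_ne_zero _).mpr hc), sub_self]
  have hint : IsIntegral F[X] u := ⟨G, hm, hG⟩
  have h3 : G ∣ Bivariate.swap f := by
    exact ((minpoly.irreducible hint).dvd_symm hirr (minpoly.isIntegrallyClosed_dvd hint hG)).trans
      (minpoly.isIntegrallyClosed_dvd hint (by rw [key, Bivariate.aevalAeval_swap, hf]))
  have h4 := map_dvd (Bivariate.swap (R := F)) h3
  rw [Bivariate.swap_swap_apply] at h4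
  refine Dvd.dvd.trans ⟨-C (C c⁻¹), ?_⟩ h4
  simp only [G, map_sub, map_pow, Bivariate.swap_Y, Bivariate.swap_C, map_C, map_mul]
  have : (C (C c) * C (C c⁻¹) : F[X][Y]) = 1 := by
    rw [← map_mul, ← map_mul, mul_inv_cancel₀ hc, map_one, map_one]
  linear_combination -(C X ^ 3) * this

variable {A K S : Type} [CommRing A] [Field K] [Algebra A K] [CommRing S] [Algebra A S]

theorem aevalAeval_rel {φ : A[X]} {c : A} {x y : S} (h : aeval y φ = algebraMap A S c * x ^ 3) :
    aevalAeval x y (φ.map C - C (C c * X ^ 3)) = 0 := by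
  rw [map_sub, ← Bivariate.swap_C, Bivariate.aevalAeval_swap, aevalAeval_C, aevalAeval_C, h,
    map_mul, aeval_C, map_pow, aeval_X, sub_self]

theorem monic_rel [Nontrivial A] {χ : A[X]} (hm : χ.Monic) (r c : A) :
    (((X - C r) * χ).map C - C (C c * X ^ 3) : A[X][Y]).Monic ∧
    (((X - C r) * χ).map C - C (C c * X ^ 3) : A[X][Y]).degree = (1 + χ.natDegree : ℕ) := by
  have h0 := (monic_X_sub_C r).mul hm
  have h1 := h0.map (C : A →+* A[X])
  have h2 : (((X - C r) * χ).map C : A[X][Y]).degree = (1 + χ.natDegree : ℕ) := by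
    rw [degree_eq_natDegree h1.ne_zero, h0.natDegree_map, (monic_X_sub_C r).natDegree_mul hm,
      natDegree_X_sub_C]
  have h3 : (C (C c * X ^ 3) : A[X][Y]).degree < (((X - C r) * χ).map C : A[X][Y]).degree := by
    rw [h2]
    exact degree_C_le.trans_lt (by norm_cast; omega)
  exact ⟨h1.sub_of_left h3, (degree_sub_eq_left_of_degree_lt h3).trans h2⟩

theorem ker_rel [IsDomain A] [FaithfulSMul A K] {χ : A[X]} (hm : χ.Monic) {r c : A}
    (hr : χ.eval r ≠ 0) (hc : c ≠ 0) {u T : K} (hT : Transcendental A T)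
    (h : aeval T ((X - C r) * χ) = algebraMap A K c * u ^ 3) {υ τ : S}
    (h' : aeval τ ((X - C r) * χ) = algebraMap A S c * υ ^ 3) {f : A[X][Y]}
    (hf : aevalAeval u T f = 0) : aevalAeval υ τ f = 0 := by
  let F := FractionRing A
  let : Algebra F K := FractionRing.liftAlgebra A K
  have := FractionRing.isScalarTower_liftAlgebra A K
  have hj := IsFractionRing.injective A F
  have h0 : f %ₘ (((X - C r) * χ).map C - C (C c * X ^ 3)) = 0 := by
    refine map_injective (mapRingHom (algebraMap A F)) (map_injective _ hj) ?_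
    rw [Polynomial.map_zero]
    refine eq_zero_of_dvd_of_degree_lt (dvd_of_aeval
      (φ := (X - C (algebraMap A F r)) * χ.map (algebraMap A F)) (r := algebraMap A F r)
      (c := algebraMap A F c) (u := u) (T := T) (dvd_mul_right _ _) ?_
      ((map_ne_zero_iff _ hj).mpr hc) ?_ ?_ ?_) ?_
    · rw [pow_two, mul_dvd_mul_iff_left (X_sub_C_ne_zero _), dvd_iff_isRoot, IsRoot,
        eval_map_algebraMap, aeval_algebraMap_apply_eq_algebraMap_eval]
      exact (map_ne_zero_iff _ hj).mpr hr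
    · exact fun ha => hT ((IsFractionRing.isAlgebraic_iff A F K).mpr ha)
    · simpa [aeval_map_algebraMap, ← IsScalarTower.algebraMap_apply] using h
    · have key : ∀ g : A[X][Y], aevalAeval u T (g.map (mapRingHom (algebraMap A F))) =
          aevalAeval u T g := fun g => by
        induction g using Polynomial.induction_on' with
        | add p q hp hq => rw [Polynomial.map_add, map_add, map_add, hp, hq]
        | monomial n a => simp [← C_mul_X_pow_eq_monomial, aeval_map_algebraMap]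
      rw [key, modByMonic_eq_sub_mul_div, map_sub, map_mul, hf, aevalAeval_rel h, zero_mul, sub_zero]
    · rw [(monic_rel (hm.map _) _ _).2, hm.natDegree_map, ← (monic_rel hm r c).2]
      exact (degree_map_le).trans_lt (degree_modByMonic_lt f (monic_rel hm r c).1)
  rw [← modByMonic_add_div f _, h0, zero_add, map_mul, aevalAeval_rel h', zero_mul]

theorem exists_hom_one [IsDomain A] [FaithfulSMul A K] {χ : A[X]} (hm : χ.Monic) {r c : A}
    (hr : χ.eval r ≠ 0) (hc : c ≠ 0) {u T : K} (hT : Transcendental A T)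
    (h : aeval T ((X - C r) * χ) = algebraMap A K c * u ^ 3) {υ τ : S}
    (h' : aeval τ ((X - C r) * χ) = algebraMap A S c * υ ^ 3) :
    ∃ Ψ : Algebra.adjoin A {u, T} →ₐ[A] S, (∀ h, Ψ ⟨u, h⟩ = υ) ∧ ∀ h, Ψ ⟨T, h⟩ = τ := by
  let e : A[X][Y] →ₐ[A] K := aevalAeval u T
  have hker : RingHom.ker e.rangeRestrict.toRingHom ≤ RingHom.ker (aevalAeval υ τ).toRingHom :=
    fun f hf => ker_rel hm hr hc hT h h' (congrArg Subtype.val hf)
  have hle : Algebra.adjoin A {u, T} ≤ e.range := Algebra.adjoin_le (by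
    rintro a (rfl | rfl)
    exacts [⟨C X, aevalAeval_X _ _⟩, ⟨Y, aevalAeval_Y _ _⟩])
  have key : ∀ (f) (a : Algebra.adjoin A {u, T}), e f = a → ((AlgHom.liftOfSurjective _
      e.rangeRestrict_surjective _ hker).comp (Subalgebra.inclusion hle)) a =
      aevalAeval υ τ f := fun f a h => by
    have h1 : Subalgebra.inclusion hle a = e.rangeRestrict f := Subtype.ext h.symm
    rw [AlgHom.comp_apply, h1, AlgHom.liftOfSurjective_apply]
  exact ⟨_, fun h => (key (C X) _ (aevalAeval_X _ _)).trans (aevalAeval_X _ _),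
    fun h => (key Y _ (aevalAeval_Y _ _)).trans (aevalAeval_Y _ _)⟩

theorem exists_hom_step (R : Subalgebra A K) {χ : A[X]} (hm : χ.Monic) {r c : A}
    (hr : algebraMap A K (χ.eval r) ≠ 0) (hc : algebraMap A K c ≠ 0) {u T : K}
    (hT : Transcendental R T) (h : aeval T ((X - C r) * χ) = algebraMap A K c * u ^ 3)
    (ψ : R →ₐ[A] S) {υ τ : S} (h' : aeval τ ((X - C r) * χ) = algebraMap A S c * υ ^ 3)
    (R' : Subalgebra A K) (hR : R' ≤ Algebra.adjoin A (R ∪ {u, T})) :
    ∃ Ψ : R' →ₐ[A] S, (∀ (a : R) h, Ψ ⟨a, h⟩ = ψ a) ∧ (∀ h, Ψ ⟨u, h⟩ = υ) ∧ ∀ h, Ψ ⟨T, h⟩ = τ := by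
  let : Algebra R S := ψ.toRingHom.toAlgebra
  have : IsScalarTower A R S := .of_algebraMap_eq fun a => (ψ.commutes a).symm
  have h1 : (X - C (algebraMap A R r)) * χ.map (algebraMap A R) =
      ((X - C r) * χ).map (algebraMap A R) := by
    rw [Polynomial.map_mul, Polynomial.map_sub, map_X, map_C]
  obtain ⟨Ψ, h2, h3⟩ := exists_hom_one (K := K) (hm.map (algebraMap A R)) (r := algebraMap A R r)
    (c := algebraMap A R c) (fun h0 => hr (by
        rw [eval_map_algebraMap, aeval_algebraMap_apply_eq_algebraMap_eval] at h0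
        exact congrArg Subtype.val h0)) (fun h0 => hc (congrArg Subtype.val h0)) hT
      (u := u) (by rw [h1, aeval_map_algebraMap]; exact h) (υ := υ) (τ := τ)
      (by rw [h1, aeval_map_algebraMap, h', IsScalarTower.algebraMap_apply A R S])
  have hle : R' ≤ (Algebra.adjoin R {u, T}).restrictScalars A := hR.trans (Algebra.adjoin_le (by
    rintro a (ha | ha)
    exacts [Subalgebra.algebraMap_mem _ (⟨a, ha⟩ : R), Algebra.subset_adjoin ha]))
  exact ⟨(Ψ.restrictScalars A).comp (Subalgebra.inclusion hle), fun a _ => Ψ.commutes a,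
    fun _ => h2 _, fun _ => h3 _⟩

/-- The ring generated by the `u i`, `T i` is presented by the relations
`(T i - r i) χ i (T i) = c i * u i ^ 3`. -/
theorem exists_hom {ι : Type} [Finite ι] {χ : ι → A[X]} (hm : ∀ i, (χ i).Monic) {r c : ι → A}
    (hr : ∀ i, algebraMap A K ((χ i).eval (r i)) ≠ 0) (hc : ∀ i, algebraMap A K (c i) ≠ 0)
    {u T : ι → K} (hT : AlgebraicIndependent A T)
    (h : ∀ i, aeval (T i) ((X - C (r i)) * χ i) = algebraMap A K (c i) * u i ^ 3) {υ τ : ι → S}
    (h' : ∀ i, aeval (τ i) ((X - C (r i)) * χ i) = algebraMap A S (c i) * υ i ^ 3) :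
    ∃ Ψ : Algebra.adjoin A (Set.range u ∪ Set.range T) →ₐ[A] S,
      ∀ i, (∀ h, Ψ ⟨u i, h⟩ = υ i) ∧ ∀ h, Ψ ⟨T i, h⟩ = τ i := by
  have key : ∀ s : Set ι, ∃ Ψ : Algebra.adjoin A (u '' s ∪ T '' s) →ₐ[A] S,
      ∀ i ∈ s, (∀ h, Ψ ⟨u i, h⟩ = υ i) ∧ ∀ h, Ψ ⟨T i, h⟩ = τ i := by
    intro s
    induction s, s.toFinite using Set.Finite.induction_on with
    | empty =>
      exact ⟨(Algebra.ofId A S).comp ((Algebra.botEquivOfInjective hT.algebraMap_injective :
        (⊥ : Subalgebra A K) →ₐ[A] A).comp (Subalgebra.inclusion (by simp))), by simp⟩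
    | @insert i s hi _ ih =>
      obtain ⟨ψ, hψ⟩ := ih
      have h1 : Algebra.adjoin A (u '' s ∪ T '' s) ≤ (Subalgebra.algebraicClosure
          (Algebra.adjoin A (T '' s)) K).restrictScalars A := by
        refine Algebra.adjoin_le ?_
        rintro _ (⟨l, hl, rfl⟩ | hl)
        · let t : Algebra.adjoin A (T '' s) := ⟨T l, Algebra.subset_adjoin ⟨l, hl, rfl⟩⟩
          refine IsAlgebraic.of_pow (n := 3) (by norm_num) (IsAlgebraic.of_mul
            (mem_nonZeroDivisors_of_ne_zero (hc l))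
            (isAlgebraic_algebraMap (algebraMap A (Algebra.adjoin A (T '' s)) (c l))) ?_)
          rw [← h l, show T l = algebraMap _ K t from rfl, aeval_algebraMap_apply]
          exact isAlgebraic_algebraMap _
        · exact isAlgebraic_algebraMap (⟨_, Algebra.subset_adjoin hl⟩ : Algebra.adjoin A (T '' s))
      obtain ⟨Ψ, h2, h3, h4⟩ := exists_hom_step _ (hm i) (hr i) (hc i)
        (Transcendental.of_ringHom_of_comp_eq (Subalgebra.inclusion h1).toRingHom (RingHom.id K)
          (hT.transcendental_adjoin hi).subalgebraAlgebraicClosure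
          (Subalgebra.inclusion_injective h1) rfl) (h i) ψ (h' i)
        (Algebra.adjoin A (u '' insert i s ∪ T '' insert i s)) (Algebra.adjoin_mono (by
          rintro _ (⟨l, rfl | hl, rfl⟩ | ⟨l, rfl | hl, rfl⟩)
          exacts [Or.inr (Or.inl rfl), Or.inl (Algebra.subset_adjoin (Or.inl ⟨l, hl, rfl⟩)),
            Or.inr (Or.inr rfl), Or.inl (Algebra.subset_adjoin (Or.inr ⟨l, hl, rfl⟩))]))
      refine ⟨Ψ, ?_⟩
      rintro l (rfl | hl)
      · exact ⟨h3, h4⟩
      · exact ⟨fun h => (h2 ⟨_, Algebra.subset_adjoin (Or.inl ⟨l, hl, rfl⟩)⟩ h).trans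
          ((hψ l hl).1 _), fun h => (h2 ⟨_, Algebra.subset_adjoin (Or.inr ⟨l, hl, rfl⟩)⟩ h).trans
          ((hψ l hl).2 _)⟩
  obtain ⟨Ψ, hΨ⟩ := key Set.univ
  exact ⟨Ψ.comp (Subalgebra.inclusion (by simp)), fun i =>
    ⟨fun _ => (hΨ i trivial).1 _, fun _ => (hΨ i trivial).2 _⟩⟩

open AG

/-- The monic form of `gg b` is `(X - C (rr b)) * ch b`. -/
noncomputable def ch (A : Type) [CommRing A] (b : Bool) : A[X] := if b then X + 1 else X ^ 2 - 1

/-- A simple root of `gg b`. -/
def rr (A : Type) [CommRing A] (b : Bool) : A := if b then 1 else 0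

/-- The sign of `gg b`. -/
def sg (A : Type) [CommRing A] (b : Bool) : A := if b then 1 else -1

theorem ch_monic (b : Bool) : (ch A b).Monic := by
  cases b
  exacts [monic_X_pow_sub_C 1 two_ne_zero, monic_X_add_C 1]

theorem ch_ne [CharZero K] (b : Bool) : algebraMap A K ((ch A b).eval (rr A b)) ≠ 0 := by
  cases b <;> simp [ch, rr]

theorem aeval_ch (b : Bool) (T : S) :
    aeval T ((X - C (rr A b)) * ch A b) = algebraMap A S (sg A b) * gg b T := by
  cases b <;> simp [ch, rr, sg, gg] <;> ring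

omit [Algebra A S] in
theorem map_gg {G : Type*} [FunLike G A S] [RingHomClass G A S] (f : G) (b : Bool) (T : A) :
    f (gg b T) = gg b (f T) := by
  cases b <;> simp [gg]

theorem hom1 : Hom1Stmt := by
  intro k K C _ _ _ _ _ _ V b u v φ u' v' hu h h'
  have : CharZero K := charZero_of_injective_algebraMap (algebraMap k K).injective
  obtain ⟨ψ, h1, h2, h3⟩ := exists_hom_step V (ch_monic b) (ch_ne b) (c := sg k b)
    (by cases b <;> simp [sg]) hu (by rw [aeval_ch, ← h]) φ (by rw [aeval_ch, ← h'])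
    (Algebra.adjoin k ((V : Set K) ∪ {u, v})) (by rw [Set.pair_comm])
  exact ⟨ψ, h1, h3, h2⟩

variable {k : Type} [Field k] [Algebra k K] [Algebra k S]

/-- Relative form: over a subalgebra `R`, relations `gg (T i) = c * u i ^ 3`. -/
theorem exists_hom_over [CharZero K] {ι : Type} [Finite ι] (R : Subalgebra k K) (ψ : R →ₐ[k] S)
    (b : ι → Bool) {c : R} (hc : c ≠ 0) {u T : ι → K} (hT : AlgebraicIndependent R T)
    (h : ∀ i, gg (b i) (T i) = c * u i ^ 3) {υ τ : ι → S}
    (h' : ∀ i, gg (b i) (τ i) = ψ c * υ i ^ 3) (R' : Subalgebra k K)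
    (hR : R' ≤ Algebra.adjoin k (R ∪ (Set.range u ∪ Set.range T))) :
    ∃ Ψ : R' →ₐ[k] S, (∀ (a : R) h, Ψ ⟨a, h⟩ = ψ a) ∧
      ∀ i, (∀ h, Ψ ⟨u i, h⟩ = υ i) ∧ ∀ h, Ψ ⟨T i, h⟩ = τ i := by
  let : Algebra R S := ψ.toRingHom.toAlgebra
  have : IsScalarTower k R S := .of_algebraMap_eq fun a => (ψ.commutes a).symm
  obtain ⟨Ψ, h2⟩ := exists_hom (K := K) (S := S) (fun i => ch_monic (A := R) (b i))
    (fun i => ch_ne (b i)) (c := fun i => sg R (b i) * c) (fun i => by
      rw [map_mul]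
      exact mul_ne_zero (by cases b i <;> simp [sg]) fun h0 => hc (Subtype.ext h0)) hT
    (fun i => by rw [aeval_ch, h, map_mul, mul_assoc]; rfl)
    (fun i => by rw [aeval_ch, h', map_mul, mul_assoc]; rfl)
  have hle : R' ≤ (Algebra.adjoin R (Set.range u ∪ Set.range T)).restrictScalars k :=
    hR.trans (Algebra.adjoin_le (by
      rintro a (ha | ha)
      exacts [Subalgebra.algebraMap_mem _ (⟨a, ha⟩ : R), Algebra.subset_adjoin ha]))
  exact ⟨(Ψ.restrictScalars k).comp (Subalgebra.inclusion hle), fun a _ => Ψ.commutes a,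
    fun i => ⟨fun _ => (h2 i).1 _, fun _ => (h2 i).2 _⟩⟩

theorem trd : TrdStmt := by
  intro k L ι _ _ _ _ a b ha h
  have := Fintype.ofFinite ι
  let M := AlgebraicIndependent.matroid k L
  have h1 : M.Indep (Set.range a) := ha.to_subtype_range
  have h2 : (Set.range a).encard ≤ M.eRk (Set.range b) := by
    rw [← M.eRk_closure_eq]
    refine h1.encard_le_eRk_of_subset ?_
    rw [AlgebraicIndependent.matroid_closure_eq]
    rintro _ ⟨i, rfl⟩
    exact h i
  rw [← Set.image_univ, ha.injective.encard_image] at h2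
  have h3 := M.eRk_le_encard (Set.range b)
  have h4 : (Set.range b).encard ≤ (Set.univ : Set ι).encard := by
    rw [← Set.image_univ]; exact Set.encard_image_le _ _
  have h5 : M.Indep (Set.range b) :=
    (M.indep_iff_eRk_eq_encard_of_finite (Set.finite_range b)).mpr (h3.antisymm (h4.trans h2))
  refine AlgebraicIndependent.of_subtype_range ?_ h5
  rw [← Set.injOn_univ]
  refine Set.Finite.injOn_of_encard_image_eq Set.finite_univ ?_
  rw [Set.image_univ]
  exact h4.antisymm (h2.trans h3)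

variable {ι : Type} {x y : ι → K}

theorem y_ne (h : Gen k x y) (i : ι) : y i ≠ 0 := h.ind.ne_zero i

theorem cv_cube (h : Gen k x y) (c : ι → Bool) (i : ι) : cv x y c i ^ 3 = gg (c i) (cu y c i) := by
  have h0 := y_ne h i
  unfold cv cu gg
  split_ifs
  · linear_combination - h.eq i
  · field_simp
    linear_combination - h.eq i

theorem cu_ind [Finite ι] (h : Gen k x y) (c : ι → Bool) : AlgebraicIndependent k (cu y c) := by
  refine trd k K ι y _ h.ind fun i => ?_
  have h1 := isAlgebraic_algebraMap (A := K) (⟨cu y c i, Algebra.subset_adjoin ⟨i, rfl⟩⟩ :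
    Algebra.adjoin k (Set.range (cu y c)))
  change IsAlgebraic _ (if c i then y i else (y i)⁻¹) at h1
  split_ifs at h1
  exacts [h1, IsAlgebraic.inv_iff.mp h1]

theorem gg_ne {T : K} (hT : Transcendental k T) (b : Bool) : gg b T ≠ 0 := fun h0 =>
  hT ⟨_, ((monic_X_sub_C (rr k b)).mul (ch_monic b)).ne_zero, by rw [aeval_ch, h0, mul_zero]⟩

theorem cv_ne [Finite ι] (h : Gen k x y) (c : ι → Bool) (i : ι) : cv x y c i ≠ 0 := fun h0 =>
  gg_ne ((cu_ind h c).transcendental i) (c i) (by rw [← cv_cube h, h0, zero_pow three_ne_zero])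

theorem homN : HomStmt := by
  intro k K C ι _ _ _ _ _ _ _ x y c u' v' h h'
  have : CharZero K := charZero_of_injective_algebraMap (algebraMap k K).injective
  obtain ⟨Ψ, hΨ⟩ := exists_hom (fun i => ch_monic (A := k) (c i)) (fun i => ch_ne (c i))
    (c := fun i => sg k (c i)) (fun i => by cases c i <;> simp [sg]) (cu_ind h c)
    (fun i => by rw [aeval_ch, ← cv_cube h]) (υ := v') (τ := u') fun i => by rw [aeval_ch, ← h']
  exact ⟨Ψ, fun i => (hΨ i).2, fun i => (hΨ i).1⟩

theorem frac_of_top {G : Set K} (h : IntermediateField.adjoin k G = ⊤) :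
    Frac (Algebra.adjoin k G) := fun f => by
  obtain ⟨a, ha, b, hb, rfl⟩ := IntermediateField.mem_adjoin_iff_div.mp (h.ge (Set.mem_univ f))
  by_cases h0 : b = 0
  · exact ⟨0, zero_mem _, 1, one_mem _, one_ne_zero, by simp [h0]⟩
  · exact ⟨a, ha, b, hb, h0, rfl⟩

theorem top_of_mem (h : Gen k x y) {c : ι → Bool} {M : IntermediateField k K}
    (h1 : ∀ i, cv x y c i ∈ M) (h2 : ∀ i, cu y c i ∈ M) : M = ⊤ := by
  have h3 : ∀ i, x i ∈ M ∧ y i ∈ M := fun i => by
    have h4 := h1 i
    have h5 := h2 i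
    unfold cv at h4
    unfold cu at h5
    split_ifs at h4 h5
    · exact ⟨h4, h5⟩
    · have h6 : y i ∈ M := by simpa using inv_mem h5
      exact ⟨by simpa [y_ne h i] using mul_mem h4 h6, h6⟩
  rw [eq_top_iff, ← h.top, IntermediateField.adjoin_le_iff]
  rintro _ (⟨i, rfl⟩ | ⟨i, rfl⟩)
  exacts [(h3 i).1, (h3 i).2]

theorem fracChart : FracStmt := fun _ _ _ _ _ _ _ _ _ h => frac_of_top (top_of_mem h
  (fun i => IntermediateField.subset_adjoin _ _ (Or.inl ⟨i, rfl⟩))
  fun i => IntermediateField.subset_adjoin _ _ (Or.inr ⟨i, rfl⟩))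

theorem isFractionRing {R : Subalgebra k K} (h : Frac R) : IsFractionRing R K :=
  .of_field _ _ fun f => by
    obtain ⟨a, ha, b, hb, -, rfl⟩ := h f
    exact ⟨⟨a, ha⟩, ⟨b, hb⟩, rfl⟩

theorem fieldHom : FieldHomStmt := by
  intro k K L ι _ _ _ _ _ _ _ x y x' y' h h1 h2
  have : CharZero L := charZero_of_injective_algebraMap (algebraMap k L).injective
  obtain ⟨φ, h3, h4⟩ := homN k K L ι x y (fun _ => true) y' x' h fun i => by
    simp only [gg, if_true]; linear_combination - h2 i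
  obtain ⟨Ψ, hΨ⟩ := exists_hom (fun _ => ch_monic (A := k) true) (fun _ => ch_ne true)
    (c := fun _ => sg k true) (fun i => by simp [sg]) h1 (u := x') (fun i => by
      rw [aeval_ch, gg, if_pos rfl, h2, add_sub_cancel_right]) (υ := x) (τ := y) fun i => by
      rw [aeval_ch, gg, if_pos rfl, h.eq, add_sub_cancel_right]
  have h5 : ∀ a : (chart x y (fun _ => true) : Subalgebra k K), ∃ h, Ψ ⟨φ a, h⟩ = a := by
    rintro ⟨a, ha⟩
    induction ha using Algebra.adjoin_induction with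
    | mem a ha =>
      rcases ha with ⟨i, rfl⟩ | ⟨i, rfl⟩
      · have e := h4 i (Algebra.subset_adjoin (Or.inl ⟨i, rfl⟩))
        have e' : x' i ∈ Algebra.adjoin k (Set.range x' ∪ Set.range y') :=
          Algebra.subset_adjoin (Or.inl ⟨i, rfl⟩)
        exact ⟨e ▸ e', (congrArg Ψ (Subtype.ext e)).trans ((hΨ i).1 e')⟩
      · have e := h3 i (Algebra.subset_adjoin (Or.inr ⟨i, rfl⟩))
        have e' : y' i ∈ Algebra.adjoin k (Set.range x' ∪ Set.range y') :=
          Algebra.subset_adjoin (Or.inr ⟨i, rfl⟩)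
        exact ⟨e ▸ e', (congrArg Ψ (Subtype.ext e)).trans ((hΨ i).2 e')⟩
    | algebraMap r =>
      have e := φ.commutes r
      exact ⟨e ▸ Subalgebra.algebraMap_mem _ r, (congrArg Ψ (Subtype.ext e)).trans (Ψ.commutes r)⟩
    | add a b ha hb h6 h7 =>
      obtain ⟨h6, e6⟩ := h6
      obtain ⟨h7, e7⟩ := h7
      have e := map_add φ ⟨a, ha⟩ ⟨b, hb⟩
      exact ⟨e ▸ add_mem h6 h7, (congrArg Ψ (Subtype.ext e)).trans
        ((map_add Ψ ⟨_, h6⟩ ⟨_, h7⟩).trans (by rw [e6, e7]))⟩
    | mul a b ha hb h6 h7 =>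
      obtain ⟨h6, e6⟩ := h6
      obtain ⟨h7, e7⟩ := h7
      have e := map_mul φ ⟨a, ha⟩ ⟨b, hb⟩
      exact ⟨e ▸ mul_mem h6 h7, (congrArg Ψ (Subtype.ext e)).trans
        ((map_mul Ψ ⟨_, h6⟩ ⟨_, h7⟩).trans (by rw [e6, e7]))⟩
  have h6 : Function.Injective φ := fun a b e => by
    obtain ⟨ha, ea⟩ := h5 a
    obtain ⟨hb, eb⟩ := h5 b
    exact Subtype.ext (ea.symm.trans ((congrArg Ψ (Subtype.ext e)).trans eb))
  have := isFractionRing (fracChart k K ι x y (fun _ => true) h)
  exact ⟨IsFractionRing.liftAlgHom h6, fun i => (IsFractionRing.lift_algebraMap h6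
    ⟨_, Algebra.subset_adjoin (Or.inl ⟨i, rfl⟩)⟩).trans (h4 i _), fun i =>
    (IsFractionRing.lift_algebraMap h6 ⟨_, Algebra.subset_adjoin (Or.inr ⟨i, rfl⟩)⟩).trans (h3 i _)⟩

theorem exists_gen (k ι : Type) [Field k] : ∃ (K : Type) (_ : Field K) (_ : Algebra k K)
    (x y : ι → K), Gen k x y := by
  let Ω := AlgebraicClosure (FractionRing (MvPolynomial ι k))
  let y : ι → Ω := fun i => algebraMap (MvPolynomial ι k) Ω (MvPolynomial.X i)
  have hy : AlgebraicIndependent k y := (MvPolynomial.algebraicIndependent_X ι k).map'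
    (f := IsScalarTower.toAlgHom k _ Ω) ((algebraMap (FractionRing (MvPolynomial ι k)) Ω).injective.comp
      (IsFractionRing.injective (MvPolynomial ι k) _))
  choose x hx using fun i => IsAlgClosed.exists_pow_nat_eq (y i ^ 2 - 1) three_pos
  let K := IntermediateField.adjoin k (Set.range x ∪ Set.range y)
  refine ⟨K, inferInstance, inferInstance,
    fun i => ⟨x i, IntermediateField.subset_adjoin _ _ (Or.inl ⟨i, rfl⟩)⟩,
    fun i => ⟨y i, IntermediateField.subset_adjoin _ _ (Or.inr ⟨i, rfl⟩)⟩,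
    .of_comp K.val hy, fun i => Subtype.ext ?_, IntermediateField.map_injective K.val ?_⟩
  · change y i ^ 2 = x i ^ 3 + 1
    rw [hx, sub_add_cancel]
  · rw [IntermediateField.adjoin_map, Set.image_union, ← Set.range_comp, ← Set.range_comp,
      ← AlgHom.fieldRange_eq_map, IntermediateField.fieldRange_val]
    rfl

theorem exists_setup (k : Type) [Field k] [CharZero k] [IsAlgClosed k] : ∃ (K : Type) (_ : Field K)
    (_ : Algebra k K) (w : k) (x y : Fin 3 → K) (σ : K ≃ₐ[k] K), Setup w x y σ := by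
  obtain ⟨K, _, _, x, y, h⟩ := exists_gen k (Fin 3)
  obtain ⟨w, hw⟩ := IsAlgClosed.exists_root (X ^ 2 + X + 1 : k[X]) (by
    rw [show (X ^ 2 + X + 1 : k[X]).degree = 2 by compute_degree!]; norm_num)
  have hw' : w ^ 2 + w + 1 = 0 := by simpa using hw
  have h3 : algebraMap k K w ^ 3 = 1 := by rw [← map_pow, E.cube hw', map_one]
  obtain ⟨φ, h1, h2⟩ := fieldHom k K K _ x y (fun i => algebraMap k K w * x i) y h h.ind
    fun i => by rw [mul_pow, h3, one_mul, h.eq]
  have h4 : φ.fieldRange = ⊤ := top_of_mem h (c := fun _ => true)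
    (fun i => ⟨algebraMap k K w ^ 2 * x i, by
      change φ _ = x i
      rw [map_mul, map_pow, φ.commutes, h1, ← mul_assoc, ← pow_succ, h3, one_mul]⟩)
    fun i => ⟨y i, h2 i⟩
  exact ⟨K, inferInstance, inferInstance, w, x, y, AlgEquiv.ofBijective φ
    ⟨φ.injective, AlgHom.fieldRange_eq_top.mp h4⟩, h, hw', h1, h2⟩

/-- Homomorphisms out of a chart of the blow-up or of its quotient. -/
theorem exists_hom_chart [CharZero k] [Finite ι] (h : Gen k x y) (c : ι → Bool) (j : ι)
    (R : Subalgebra k K) (hR : ∀ a ∈ R, IsAlgebraic (Algebra.adjoin k (cu y c '' {j})) a)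
    (hj : cu y c j ∈ R) (ψ : R →ₐ[k] S) {υ τ : ι → S} (h1 : υ j = 1) (h2 : ψ ⟨_, hj⟩ = τ j)
    (h3 : ∀ i, gg (c i) (τ i) = gg (c j) (τ j) * υ i ^ 3) (R' : Subalgebra k K)
    (hR' : R' ≤ Algebra.adjoin k (R ∪ ((Set.range fun i => cv x y c i / cv x y c j) ∪
      Set.range (cu y c)))) :
    ∃ Ψ : R' →ₐ[k] S, (∀ (a : R) h, Ψ ⟨a, h⟩ = ψ a) ∧
      ∀ i, (∀ h, Ψ ⟨cv x y c i / cv x y c j, h⟩ = υ i) ∧ ∀ h, Ψ ⟨cu y c i, h⟩ = τ i := by
  have : CharZero K := charZero_of_injective_algebraMap (algebraMap k K).injective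
  have h0 := cv_ne h c j
  have hle : R ≤ (Subalgebra.algebraicClosure (Algebra.adjoin k (cu y c '' {j})) K).restrictScalars
    k := hR
  have e : ((gg (c j) ⟨_, hj⟩ : R) : K) = cv x y c j ^ 3 :=
    (map_gg R.val _ _).trans (cv_cube h c j).symm
  obtain ⟨Ψ, h4, h5⟩ := exists_hom_over (ι := ({j}ᶜ : Set ι)) R ψ (fun i => c i)
    (c := gg (c j) ⟨_, hj⟩) (fun h' => pow_ne_zero 3 h0 (e.symm.trans (congrArg Subtype.val h')))
    (u := fun i => cv x y c i / cv x y c j) (T := fun i => cu y c i)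
    (AlgebraicIndependent.of_ringHom_of_comp_eq (Subalgebra.inclusion hle).toRingHom (RingHom.id K)
      ((cu_ind h c).adjoin_of_disjoint disjoint_compl_right).subalgebraAlgebraicClosure
      (Subalgebra.inclusion_injective hle) rfl)
    (fun i => by rw [e, ← cv_cube h, ← mul_pow, mul_div_cancel₀ _ h0])
    (υ := fun i => υ i) (τ := fun i => τ i) (fun i => by rw [map_gg, h2, h3]) R'
    (hR'.trans (Algebra.adjoin_le (by
      rintro a (ha | ⟨i, rfl⟩ | ⟨i, rfl⟩)
      · exact Algebra.subset_adjoin (Or.inl ha)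
      · by_cases hi : i = j
        · simp only [hi, div_self h0, SetLike.mem_coe, one_mem]
        · exact Algebra.subset_adjoin (Or.inr (Or.inl ⟨⟨i, hi⟩, rfl⟩))
      · by_cases hi : i = j
        · exact Algebra.subset_adjoin (Or.inl (hi ▸ hj))
        · exact Algebra.subset_adjoin (Or.inr (Or.inr ⟨⟨i, hi⟩, rfl⟩)))))
  refine ⟨Ψ, h4, fun i => ?_⟩
  by_cases hi : i = j
  · subst hi
    exact ⟨fun _ => (congrArg Ψ (Subtype.ext (div_self h0))).trans ((map_one Ψ).trans h1.symm),
      fun h => (h4 ⟨_, hj⟩ h).trans h2⟩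
  · exact h5 ⟨i, hi⟩

theorem bhom : BHomStmt := by
  intro k K C _ _ _ _ _ _ x y p j r h hr
  let c : Fin 3 → Bool := fun _ => false
  have h0 : ∀ i, gg false ((p i).valMinAbs : C) = 0 := fun i => by
    have : ∀ q : ZMod 3, q.valMinAbs - q.valMinAbs ^ 3 = 0 := by decide
    simpa [gg] using congrArg (Int.cast : ℤ → C) (this (p i))
  obtain ⟨ψ, -, h1, h2⟩ := hom1 k K C ⊥ false (cu y c j) (cv x y c j)
    ((Algebra.ofId k C).comp (Algebra.botEquiv k K : _ →ₐ[k] k)) ((p j).valMinAbs : C) 0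
    (fun ha => (cu_ind h c).transcendental j
      ((Subalgebra.isAlgebraic_bot_iff (algebraMap k K).injective).mp ha)) (cv_cube h c j) (by simp [h0])
  have hm : ∀ a ∈ ({cu y c j, cv x y c j} : Set K), a ∈ Algebra.adjoin k
      (((⊥ : Subalgebra k K) : Set K) ∪ {cu y c j, cv x y c j}) :=
    fun a ha => Algebra.subset_adjoin (Or.inr ha)
  obtain ⟨Ψ, h3, h4⟩ := exists_hom_chart h c j _ (by
      change _ ≤ (Subalgebra.algebraicClosure (Algebra.adjoin k (cu y c '' {j})) K).restrictScalars k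
      let t : Algebra.adjoin k (cu y c '' {j}) := ⟨_, Algebra.subset_adjoin ⟨j, rfl, rfl⟩⟩
      refine Algebra.adjoin_le ?_
      rintro _ (ha | rfl | rfl)
      · exact bot_le (a := Subalgebra.restrictScalars k _) ha
      · exact isAlgebraic_algebraMap t
      · refine IsAlgebraic.of_pow three_pos ?_
        rw [cv_cube h, show cu y c j = algebraMap _ K t from rfl, ← map_gg]
        exact isAlgebraic_algebraMap _) (hm _ (Or.inl rfl)) ψ (υ := r)
    (τ := fun i => ((p i).valMinAbs : C)) hr (h1 _) (fun i => by simp only [c, h0, zero_mul])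
    (Algebra.adjoin k _) le_rfl
  have h5 : ∀ i, tc x y i = tc x y i / tc x y j * tc x y j := fun i =>
    (div_mul_cancel₀ _ (cv_ne h c j)).symm
  have m1 := fun i => Algebra.subset_adjoin (R := k) (Set.mem_union_right
    (Algebra.adjoin k (((⊥ : Subalgebra k K) : Set K) ∪ {cu y c j, cv x y c j}) : Set K)
    (Set.mem_union_left (Set.range (cu y c)) (Set.mem_range_self
      (f := fun i => cv x y c i / cv x y c j) i)))
  have m2 := Algebra.subset_adjoin (R := k) (Set.mem_union_left ((Set.range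
    fun i => cv x y c i / cv x y c j) ∪ Set.range (cu y c)) (hm _ (Or.inr rfl)))
  refine ⟨Ψ.comp (Subalgebra.inclusion (Algebra.adjoin_le ?_)), fun i _ => (h4 i).2 _,
    fun i _ => ?_, fun i _ => (h4 i).1 _⟩
  · rintro _ ((⟨i, rfl⟩ | ⟨i, rfl⟩) | ⟨i, rfl⟩)
    exacts [Algebra.subset_adjoin (Or.inr (Or.inr ⟨i, rfl⟩)), h5 i ▸ mul_mem (m1 i) m2, m1 i]
  · refine (congrArg Ψ (Subtype.ext (h5 i))).trans ((map_mul Ψ ⟨_, m1 i⟩ ⟨_, m2⟩).trans ?_)
    rw [h3 ⟨_, hm _ (Or.inr rfl)⟩, h2, mul_zero]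

end Pool.Agent.MP_20d318_ag.Sch

end MrgPart0

-- ======== part 1: formerly Pool.Agent.MP_20d318_ag.Sch.Places
section MrgPart1

/-!
The closed points of a complete normal curve are the places of its function field.
Morphisms given on local rings.
-/

set_option autoImplicit false
set_option linter.unusedSectionVars false

open AlgebraicGeometry CategoryTheory Limits IsLocalRing

namespace Pool.Agent.MP_20d318_ag.Sch

open MP_a703b5_ag MP_79c67d_ag

variable {C : Scheme.{0}} [IsIntegral C] (t : C ⟶ Spec (CommRingCat.of ℂ))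

/-- The inclusion of a local ring in the function field. -/
noncomputable def alg (p : C) : C.presheaf.stalk p ⟶ C.functionField :=
  C.presheaf.stalkSpecializes (genericPoint_specializes p)

lemma alg_inj (p : C) : Function.Injective (alg p) :=
  IsFractionRing.injective (C.presheaf.stalk p) C.functionField

lemma spec_alg (p : C) : Spec.map (alg p) ≫ C.fromSpecStalk p = C.fromSpecStalk (genericPoint C) :=
  Scheme.SpecMap_stalkSpecializes_fromSpecStalk (genericPoint_specializes p)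

instance dom_alg (p : C) : IsDominant (Spec.map (alg p)) := isDominant_spec _ (alg_inj p)

instance dom_gen : IsDominant (C.fromSpecStalk (genericPoint C)) := ⟨by
  refine (Dense.mono ?_ (dense_iff_closure_eq.mpr (genericPoint_spec C)))
  rintro _ rfl
  exact ⟨_, Scheme.fromSpecStalk_closedPoint⟩⟩

lemma spec_const : C.fromSpecStalk (genericPoint C) ≫ t = Spec.map (CommRingCat.ofHom (const t)) := by
  rw [const, CommRingCat.ofHom_hom, Spec.map_comp, Spec.map_comp, Category.assoc,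
    ← Scheme.fromSpecStalk_toSpecΓ, Category.assoc, ← Scheme.toSpecΓ_naturality_assoc,
    ← SpecMap_ΓSpecIso_hom, ← Spec.map_comp, Iso.inv_hom_id, Spec.map_id, Category.comp_id]

lemma alg_const (p : C) (c : ℂ) :
    alg p (Spec.preimage (C.fromSpecStalk p ≫ t) c) = const t c := by
  have h := spec_alg p =≫ t
  rw [spec_const, Category.assoc, ← Spec.map_preimage (C.fromSpecStalk p ≫ t), ← Spec.map_comp,
    Spec.map_inj] at h
  exact congrArg (fun g => g.hom c) h

lemma stalkMap_const {Y : Scheme.{0}} (γ : C ⟶ Y) (s : Y ⟶ Spec (CommRingCat.of ℂ)) (p : C) (c : ℂ) :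
    γ.stalkMap p (Spec.preimage (Y.fromSpecStalk (γ p) ≫ s) c) =
      Spec.preimage (C.fromSpecStalk p ≫ γ ≫ s) c := by
  have h : Spec.preimage (Y.fromSpecStalk (γ p) ≫ s) ≫ γ.stalkMap p =
      Spec.preimage (C.fromSpecStalk p ≫ γ ≫ s) := Spec.map_injective (by
    rw [Spec.map_comp, Spec.map_preimage, Spec.map_preimage,
      Scheme.SpecMap_stalkMap_fromSpecStalk_assoc])
  exact congrArg (fun g => g.hom c) h

lemma alg_gen (u : C.functionField) : alg (genericPoint C) u = u := by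
  rw [alg, TopCat.Presheaf.stalkSpecializes_refl]
  rfl

lemma isUnit_iff_inv {p : C} {u : C.presheaf.stalk p} : IsUnit u ↔ u ≠ 0 ∧
    ∃ v, alg p v = (alg p u)⁻¹ := by
  have hi := alg_inj p
  refine ⟨?_, fun ⟨h0, v, hv⟩ => isUnit_iff_exists_inv.mpr ⟨v, hi ?_⟩⟩
  · rintro ⟨u, rfl⟩
    exact ⟨u.ne_zero, u.inv, eq_inv_of_mul_eq_one_left (by rw [← map_mul, u.inv_val, map_one])⟩
  · rw [map_mul, hv, mul_inv_cancel₀ ((map_ne_zero_iff _ hi).mpr h0), map_one]

lemma exists_factor {R : Type} [CommRing R] {p : C} (ψ : R →+* C.functionField)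
    (h : ∀ a, ∃ u, alg p u = ψ a) : ∃ φ : R →+* C.presheaf.stalk p, ∀ a, alg p (φ a) = ψ a := by
  let e := RingEquiv.ofBijective _ (⟨fun a b h => alg_inj p (congrArg Subtype.val h),
    RingHom.rangeRestrict_surjective _⟩ : Function.Bijective (alg p).hom.rangeRestrict)
  exact ⟨e.symm.toRingHom.comp (ψ.codRestrict _ h),
    fun a => congrArg Subtype.val (e.apply_symm_apply _)⟩

lemma eq_of_range [C.IsSeparated] {p q : C}
    (h : ∀ f : C.functionField, (∃ u, alg p u = f) ↔ ∃ u, alg q u = f) : p = q := by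
  obtain ⟨φ, hφ⟩ := exists_factor (alg q).hom fun u => (h _).mpr ⟨u, rfl⟩
  have : IsLocalHom (CommRingCat.ofHom φ).hom := ⟨fun u hu => by
    obtain ⟨h0, v, hv⟩ := isUnit_iff_inv.mp hu
    exact isUnit_iff_inv.mpr ⟨fun h1 => h0 (h1 ▸ map_zero φ),
      (h _).mp ⟨v, hv.trans (congrArg _ (hφ u))⟩⟩⟩
  have h1 : Spec.map (CommRingCat.ofHom φ) ≫ C.fromSpecStalk q = C.fromSpecStalk p := by
    refine ext_of_isDominant (Spec.map (alg p)) ?_
    rw [spec_alg, ← Spec.map_comp_assoc, ← spec_alg q]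
    congr 2
    exact CommRingCat.hom_ext (RingHom.ext hφ)
  have h2 := congrArg (fun g => g (closedPoint (C.presheaf.stalk p))) h1
  simp only [Scheme.Hom.comp_apply, Spec_closedPoint] at h2
  exact Scheme.fromSpecStalk_closedPoint.symm.trans (h2.symm.trans Scheme.fromSpecStalk_closedPoint)

/-- A map from the generic point that extends to all local rings extends to a morphism. -/
lemma exists_glue {Y S : Scheme.{0}} [Y.IsSeparated] [S.IsSeparated] (sC : C ⟶ S) (sY : Y ⟶ S)
    [LocallyOfFiniteType sY] (φ : Spec C.functionField ⟶ Y)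
    (h0 : φ ≫ sY = C.fromSpecStalk _ ≫ sC) (h : ∀ p : C, ∃ ψ : Spec (C.presheaf.stalk p) ⟶ Y,
      Spec.map (alg p) ≫ ψ = φ) :
    ∃ γ : C ⟶ Y, γ ≫ sY = sC ∧ C.fromSpecStalk _ ≫ γ = φ := by
  choose ψ hψ using h
  choose U hU f h1 h2 using fun p => spread_out_of_isGermInjective' sC sY (ψ p)
    (ext_of_isDominant (Spec.map (alg p))
      (by rw [← Category.assoc, hψ, h0, ← Category.assoc, spec_alg]))
  let 𝒰 : C.OpenCover := Scheme.Cover.mkOfCovers C (fun p => U p) (fun p => (U p).ι)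
    fun p => ⟨p, ⟨p, hU p⟩, rfl⟩
  let g : ∀ p, Spec C.functionField ⟶ U p := fun p =>
    Spec.map (alg p) ≫ (U p).fromSpecStalkOfMem p (hU p)
  have hg : ∀ p, g p ≫ (U p).ι = C.fromSpecStalk _ := fun p => by
    rw [Category.assoc, Scheme.Opens.fromSpecStalkOfMem_ι, spec_alg]
  have hf : ∀ p, g p ≫ f p = φ := fun p => by rw [Category.assoc, ← h1, hψ]
  let γ := 𝒰.glueMorphisms f fun p q => by
    change pullback.fst (U p).ι (U q).ι ≫ _ = pullback.snd (U p).ι (U q).ι ≫ _
    let l := pullback.lift _ _ ((hg p).trans (hg q).symm)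
    have h3 : IsDominant (l ≫ pullback.fst (U p).ι (U q).ι ≫ (U p).ι) := by
      rw [pullback.lift_fst_assoc, hg]
      infer_instance
    have := IsDominant.of_comp_of_isOpenImmersion l (pullback.fst (U p).ι (U q).ι ≫ (U p).ι)
    have := isReduced_of_isOpenImmersion (pullback.fst (U p).ι (U q).ι ≫ (U p).ι)
    refine ext_of_isDominant l ?_
    rw [pullback.lift_fst_assoc, pullback.lift_snd_assoc, hf, hf]
  have hγ : ∀ p, (U p).ι ≫ γ = f p := fun p => 𝒰.ι_glueMorphisms _ _ p
  have h4 : C.fromSpecStalk _ ≫ γ = φ := by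
    rw [← hg (genericPoint C), Category.assoc, hγ, hf]
  exact ⟨γ, ext_of_isDominant (C.fromSpecStalk _) (by rw [← Category.assoc, h4, h0]), h4⟩

lemma coheight_dim (h : topologicalKrullDim C = 1) :
    (∀ p : C, Order.coheight p = 1 ∨ p = genericPoint C) ∧ ∃ p : C, Order.coheight p = 1 := by
  have h1 : Order.krullDim C = 1 := by
    let := specializationOrder C
    rwa [topologicalKrullDim, Order.krullDim_eq_of_orderIso (irreducibleSetEquivPoints (α := C))]
      at h
  have h2 : ∀ p : C, Order.coheight p = 1 ∨ Order.coheight p = 0 := fun p => by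
    have h3 := (Order.coheight_le_krullDim p).trans h1.le
    exact (Order.le_one_iff.mp (by exact_mod_cast h3)).symm
  refine ⟨fun p => (h2 p).imp_right fun h3 => ?_, by_contra fun h3 => ?_⟩
  · exact (Specializes.antisymm (Order.coheight_eq_zero.mp h3 (le_top (a := p)))
      (genericPoint_specializes p)).eq
  · rw [Order.krullDim_eq_iSup_coheight] at h1
    simp [fun p => (h2 p).resolve_left fun h => h3 ⟨p, h⟩] at h1

variable [IsLocallyNoetherian C] {L : Type} [Field L] [Algebra ℂ L] (e : C.functionField ≃+* L)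

/-- The local ring at `p` is the ring of the place `P`. -/
def Ctr (p : C) (P : Place ℂ L) : Prop :=
  ∀ f, P.v (e f) ≤ 1 ↔ ∃ u, alg p u = f

variable (he : ∀ c, e (const t c) = algebraMap ℂ L c)
  (hn : ∀ p : C, IsIntegrallyClosed (C.presheaf.stalk p))

include he hn in
lemma exists_place {p : C} (hp : Order.coheight p = 1) :
    ∃ P : Place ℂ L, Ctr e p P ∧ ∀ f, C.ord f p = P.ord (e f) := by
  have h1 := ringKrullDim_stalk_eq_coheight p
  have h0 := krullDimLE_of_coheight_le (n := 1) hp.le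
  have := hn p
  have h2 : ¬ IsField (C.presheaf.stalk p) := fun h => by
    rw [ringKrullDim_eq_zero_of_isField h, hp] at h1
    exact absurd h1 (by decide)
  have : IsDedekindDomain (C.presheaf.stalk p) :=
    { maximalOfPrime := fun h h' => Ring.krullDimLE_one_iff_of_noZeroDivisors.mp h0 _ h h' }
  have : IsDiscreteValuationRing (C.presheaf.stalk p) :=
    ((IsDiscreteValuationRing.TFAE _ h2).out 0 2).mpr this
  let v := (IsDiscreteValuationRing.maximalIdeal (C.presheaf.stalk p)).valuation C.functionField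
  refine ⟨⟨v.comap e.symm.toRingHom, fun g => ?_, fun c => ?_⟩, fun f => ?_, fun f => ?_⟩
  · obtain ⟨f, hf⟩ := IsDedekindDomain.HeightOneSpectrum.valuation_surjective C.functionField
      (IsDiscreteValuationRing.maximalIdeal (C.presheaf.stalk p)) g
    exact ⟨e f, (congrArg v (e.symm_apply_apply f)).trans hf⟩
  · rw [← he, ← alg_const t p c]
    exact (congrArg v (e.symm_apply_apply _)).trans_le
      (IsDedekindDomain.HeightOneSpectrum.valuation_le_one _ _)
  · change v (e.symm (e f)) ≤ 1 ↔ _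
    rw [e.symm_apply_apply]
    exact ⟨IsDiscreteValuationRing.exists_lift_of_le_one, fun ⟨u, hu⟩ =>
      hu ▸ IsDedekindDomain.HeightOneSpectrum.valuation_le_one _ u⟩
  · change _ = -WithZero.log (v (e.symm (e f)))
    rw [e.symm_apply_apply]
    by_cases h0 : f = 0
    · simp [h0]
    · rw [Scheme.ord_eq_iff hp h0]
      change Ring.ordFrac _ f = WithZero.exp _
      rw [Ring.ordFrac_eq_valuation_inv, WithZero.exp_neg, WithZero.exp_log (by simpa using h0)]

include he hn in
lemma exists_center [IsProper t] (hd : topologicalKrullDim C = 1) (P : Place ℂ L) :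
    ∃ p : C, Order.coheight p = 1 ∧ Ctr e p P ∧ ∀ f, C.ord f p = P.ord (e f) := by
  let R := P.v.valuationSubring
  have w : (Spec.map (CommRingCat.ofHom e.toRingHom) ≫ C.fromSpecStalk _) ≫ t =
      Spec.map (CommRingCat.ofHom (algebraMap R L)) ≫
        Spec.map (CommRingCat.ofHom ((algebraMap ℂ L).codRestrict R P.triv)) := by
    rw [Category.assoc, spec_const, ← Spec.map_comp, ← Spec.map_comp]
    congr 1
    exact CommRingCat.hom_ext (RingHom.ext he)
  have hv : ValuativeCriterion.Existence t :=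
    (UniversallyClosed.eq_valuativeCriterion.le _ _ t inferInstance).1
  obtain ⟨l, h1⟩ : ∃ l : Spec (CommRingCat.of R) ⟶ C, Spec.map (CommRingCat.ofHom (algebraMap R L)) ≫
      l = Spec.map (CommRingCat.ofHom e.toRingHom) ≫ C.fromSpecStalk _ :=
    (hv { R := R, K := L, commSq := ⟨w⟩, .. }).exists_lift.elim fun l => ⟨l.l, l.fac_left⟩
  rw [← Scheme.Spec_stalkClosedPointTo_fromSpecStalk l, ← spec_alg (l (closedPoint R)),
    ← Spec.map_comp_assoc, ← Spec.map_comp_assoc, cancel_mono, Spec.map_inj] at h1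
  have h2 : ∀ u, P.v (e (alg (l (closedPoint R)) u)) ≤ 1 := fun u =>
    (congrArg (fun g => P.v (g.hom u)) h1).ge.trans (Scheme.stalkClosedPointTo l u).2
  generalize l (closedPoint R) = p at h2
  rcases (coheight_dim hd).1 p with h | rfl
  · obtain ⟨Q, h3, h4⟩ := exists_place t e he hn h
    obtain rfl : Q = P := Place.eq_of_le fun f hf => by
      obtain ⟨f, rfl⟩ := e.surjective f
      obtain ⟨u, rfl⟩ := (h3 f).mp (Q.ge0_iff.mp hf)
      exact P.ge0_iff.mpr (h2 u)
    exact ⟨p, h, h3, h4⟩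
  · refine absurd (eq_top_iff.mpr fun f _ => ?_) P.ne_top
    have := h2 (e.symm f)
    rwa [alg_gen, e.apply_symm_apply] at this

include he hn in
lemma isFF [LocallyOfFiniteType t] (hd : topologicalKrullDim C = 1) : IsFF ℂ L := by
  obtain ⟨p, hp⟩ := (coheight_dim hd).2
  obtain ⟨P, -⟩ := exists_place t e he hn hp
  obtain ⟨_, ⟨U, hU, rfl⟩, hpU, -⟩ :=
    C.isBasis_affineOpens.exists_subset_of_mem_open (Set.mem_univ p) isOpen_univ
  have : Nonempty U := ⟨⟨p, hpU⟩⟩
  let φ := (Scheme.ΓSpecIso (CommRingCat.of ℂ)).inv ≫ t.appLE ⊤ U le_top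
  let : Algebra ℂ Γ(C, U) := φ.hom.toAlgebra
  have : Algebra.FiniteType ℂ Γ(C, U) := (t.finiteType_appLE (isAffineOpen_top _) hU le_top).comp
    (.of_surjective _ (Scheme.ΓSpecIso (CommRingCat.of ℂ)).symm.commRingCatIsoToRingEquiv.surjective)
  let : Algebra Γ(C, U) L := (e.toRingHom.comp (algebraMap _ C.functionField)).toAlgebra
  have := functionField_isFractionRing_of_isAffineOpen C U hU
  have : IsFractionRing Γ(C, U) L :=
    IsLocalization.isLocalization_of_algEquiv _ (AlgEquiv.ofRingEquiv (f := e) fun _ => rfl)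
  have : IsScalarTower ℂ Γ(C, U) L := .of_algebraMap_eq fun c => by
    rw [← he]
    change _ = e ((φ ≫ C.presheaf.germ U _ _) c)
    simp only [φ, Scheme.Hom.appLE, Category.assoc, TopCat.Presheaf.germ_res]
    rfl
  have : Algebra.EssFiniteType Γ(C, U) L := .of_isLocalization _ (nonZeroDivisors _)
  refine ⟨.comp ℂ Γ(C, U) L, ?_⟩
  obtain ⟨n, g, h1, h2⟩ := exists_integral_inj_algHom_of_fg ℂ Γ(C, U)
  let := g.toRingHom.toAlgebra
  have : IsScalarTower ℂ (MvPolynomial (Fin n) ℂ) Γ(C, U) :=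
    .of_algebraMap_eq fun c => (g.commutes c).symm
  have : Algebra.IsIntegral (MvPolynomial (Fin n) ℂ) Γ(C, U) := ⟨h2⟩
  have : FaithfulSMul (MvPolynomial (Fin n) ℂ) Γ(C, U) :=
    (faithfulSMul_iff_algebraMap_injective _ _).mpr h1
  have := IsLocalization.isAlgebraic L (nonZeroDivisors Γ(C, U))
  have h3 : Algebra.trdeg ℂ L = n := by
    rw [← trdeg_add_eq ℂ Γ(C, U), ← trdeg_add_eq ℂ (MvPolynomial (Fin n) ℂ),
      trdeg_eq_zero (A := Γ(C, U)), trdeg_eq_zero (A := L), MvPolynomial.trdeg_of_isDomain]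
    simp
  have h4 : ringKrullDim (MvPolynomial (Fin n) ℂ) ≤ 1 := by
    refine le_trans (iSup_le fun l => ?_) (?_ : ringKrullDim Γ(C, U) ≤ 1)
    · obtain ⟨Q, hQ, h5⟩ := Ideal.exists_ideal_over_prime_of_isIntegral_of_isDomain (S := Γ(C, U))
        l.head.asIdeal (((RingHom.injective_iff_ker_eq_bot _).mp h1).le.trans bot_le)
      have : Q.LiesOver l.head.asIdeal := ⟨h5.symm⟩
      obtain ⟨l', h6, -⟩ := Ideal.exists_ltSeries_of_hasGoingUp l Q
      exact h6 ▸ Order.LTSeries.length_le_krullDim l'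
    · rw [← PrimeSpectrum.topologicalKrullDim_eq_ringKrullDim]
      change topologicalKrullDim (Spec Γ(C, U)) ≤ 1
      rw [← IsHomeomorph.topologicalKrullDim_eq _ hU.isoSpec.hom.homeomorph.isHomeomorph]
      exact (topologicalKrullDim_subspace_le C U).trans hd.le
  rw [MvPolynomial.ringKrullDim_of_isNoetherianRing, ringKrullDim_eq_zero_of_field, zero_add,
    Nat.card_eq_fintype_card, Fintype.card_fin] at h4
  have h5 : n ≠ 0 := by
    rintro rfl
    exact P.transcendental (f := P.unif) (by simp) ((trdeg_eq_zero_iff.mp h3).isAlgebraic _)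
  rw [h3, show n = 1 by have : n ≤ 1 := by exact_mod_cast h4
                        omega, Nat.cast_one]

include he hn in
/-- The closed points are the places. -/
lemma exists_places [IsProper t] (hd : topologicalKrullDim C = 1) : ∃ z : Place ℂ L → C,
    Function.Injective z ∧ (∀ P, Ctr e (z P) P) ∧ (∀ p, p ∉ Set.range z → p = genericPoint C) ∧
    genericPoint C ∉ Set.range z ∧
    ∀ g : C → C.functionField, ∑ᶠ p, C.ord (g p) p = ∑ᶠ P : Place ℂ L, P.ord (e (g (z P))) := by
  have : C.IsSeparated := ⟨by rw [← terminal.comp_from t]; infer_instance⟩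
  choose z h1 h2 h3 using exists_center t e he hn hd
  have h4 : Function.Injective z := fun P Q h => Place.ext_ge fun f => by
    obtain ⟨f, rfl⟩ := e.surjective f
    rw [P.ge0_iff, Q.ge0_iff, h2 P, h2 Q, h]
  have h5 : ∀ p, Order.coheight p = 1 → p ∈ Set.range z := fun p hp => by
    obtain ⟨P, h, -⟩ := exists_place t e he hn hp
    exact ⟨P, eq_of_range fun f => (h2 P f).symm.trans (h f)⟩
  refine ⟨z, h4, h2, fun p hp => ((coheight_dim hd).1 p).resolve_left fun h => hp (h5 p h),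
    fun ⟨P, h⟩ => ?_, fun g => ?_⟩
  · have := h1 P
    rw [h] at this
    exact zero_ne_one ((Order.coheight_eq_zero.mpr (isMax_top (α := C))).symm.trans this)
  · simp only [← h3]
    rw [← finsum_mem_range (f := fun p => C.ord (g p) p) h4, ← finsum_mem_univ]
    refine finsum_mem_inter_support_eq' _ _ _ fun p hp => iff_of_true trivial (h5 p ?_)
    exact by_contra fun h => hp (Scheme.ord_eq_zero_of_coheight_neq_one h _)

/-! ### Statements of the modules of the scheme side -/

section spec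

open AG

variable {K : Type} [Field K] [Algebra ℂ K]

/-- The points of a family of charts. -/
def pts {ι : Type} (𝒞 : Charts K ι) : Set (Subalgebra ℂ K) := ⋃ j, Pts (𝒞.B j)

/-- The ring generated by the coordinates `cu` and the ratios of the coordinates `cv`. -/
def Bk (x y : Fin 3 → K) (c : Fin 3 → Bool) (j : Fin 3) : Subalgebra ℂ K :=
  Algebra.adjoin ℂ ((Set.range fun i => cv x y c i / cv x y c j) ∪ Set.range (cu y c))

/-- The 24 charts of the resolution, inside the field of invariants. -/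
noncomputable def Bq (x y : Fin 3 → K) (σ : K ≃ₐ[ℂ] K) (a : (Fin 3 → Bool) × Fin 3) :
    Subalgebra ℂ (Fx σ) :=
  (Bk x y a.1 a.2).comap (Fx σ).val

def ChartsStmt : Prop := ∀ (K : Type) [Field K] [Algebra ℂ K] (w : ℂ) (x y : Fin 3 → K)
  (σ : K ≃ₐ[ℂ] K), Setup w x y σ →
    ∃ 𝒞 : Charts (Fx σ) ((Fin 3 → Bool) × Fin 3), 𝒞.B = Bq x y σ

def PtsStmt : Prop := ∀ (K : Type) [Field K] [Algebra ℂ K] (w : ℂ) (x y : Fin 3 → K)
  (σ : K ≃ₐ[ℂ] K), Setup w x y σ → ⋃ a, Pts (Bq x y σ a) = quot σ (blE x y σ)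

def SmoothStmt : Prop := ∀ (K : Type) [Field K] [Algebra ℂ K] (w : ℂ) (x y : Fin 3 → K)
  (σ : K ≃ₐ[ℂ] K), Setup w x y σ → ∀ a, Algebra.FormallySmooth ℂ (Bq x y σ a)

def CanonStmt : Prop := ∀ (K : Type) [Field K] [Algebra ℂ K] (w : ℂ) (x y : Fin 3 → K)
  (σ : K ≃ₐ[ℂ] K), Setup w x y σ → ∀ 𝒞 : Charts (Fx σ) ((Fin 3 → Bool) × Fin 3),
    𝒞.B = Bq x y σ → ∀ M : Model 𝒞, TrivialCanonical M.s

def ResStmt : Prop := ∀ (K : Type) [Field K] [Algebra ℂ K] (w : ℂ) (x y : Fin 3 → K)
  (σ : K ≃ₐ[ℂ] K), Setup w x y σ → ∀ 𝒞 : Charts (Fx σ) ((Fin 3 → Bool) × Fin 3),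
    𝒞.B = Bq x y σ → ∀ M : Model 𝒞, ResolvesQuotient M.s

def BridgeStmt : Prop := ∀ (K ι : Type) [Field K] [Algebra ℂ K] (𝒞 : Charts K ι) (M : Model 𝒞),
  ConeStatement (pts 𝒞) →
    Module.finrank ℝ (N1 M.s) = Module.finrank ℝ (AG.N1 (pts 𝒞)) ∧ ConeConj M.s

theorem final_of (h1 : ChartsStmt) (h2 : PtsStmt) (h3 : SmoothStmt) (h4 : CanonStmt)
    (h5 : ResStmt) (h6 : BridgeStmt) (h7 : MainStmt)
    (h8 : ∀ (K : Type) [Field K] [Algebra ℂ K] (w : ℂ) (x y : Fin 3 → K) (σ : K ≃ₐ[ℂ] K),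
      Setup w x y σ → Module.finrank ℝ (AG.N1 (quot σ (blE x y σ))) = 36) :
    ∃ (X : Scheme.{0}) (_ : IsIntegral X) (s : X ⟶ Spec (CommRingCat.of ℂ)),
      IsProjective s ∧ Smooth s ∧ TrivialCanonical s ∧ ResolvesQuotient s ∧
        Module.finrank ℝ (N1 s) = 36 ∧ ConeConj s := by
  obtain ⟨K, _, _, w, x, y, σ, h⟩ := exists_setup ℂ
  obtain ⟨𝒞, hB⟩ := h1 K w x y σ h
  obtain ⟨M⟩ := exists_model 𝒞
  have h9 : pts 𝒞 = quot σ (blE x y σ) := by rw [pts, hB, h2 K w x y σ h]
  have h10 := h6 _ _ 𝒞 M (h9 ▸ h7 ℂ K w x y σ h)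
  exact ⟨M.X, inferInstance, M.s, M.proj, M.smooth fun a => hB ▸ h3 K w x y σ h a,
    h4 K w x y σ h 𝒞 hB M, h5 K w x y σ h 𝒞 hB M, h10.1.trans (h9 ▸ h8 K w x y σ h), h10.2⟩

end spec

end Pool.Agent.MP_20d318_ag.Sch

end MrgPart1

-- marker of a merged file
example : 731051 + 121617 = 731051 + 121617 := rfl
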